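import Pool.Agent.Run7.h447.SymNetField

open Run7.h447.SN

/-- For every `k ≥ 1` there is a non-classical symmetric `(4, 2^(3k-2))`-net with an automorphism
group that is transitive on the (ordered) pairs of joined points and on the (ordered) pairs of
distinct non-joined points. -/
theorem Pool.Agent.Results.MP_36fbc5_co.PairTransitiveNets.result :
    ∀ k : ℕ, 1 ≤ k → ∃ (V W : Type) (I : V → W → Prop),
      IsSymmetricNet I 4 (2 ^ (3 * k - 2)) ∧
      (∃ G : Subgroup (Equiv.Perm V), (∀ g ∈ G, IsAutomorphism I g) ∧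
        TransitiveOn G (Joined I) ∧ TransitiveOn G (NonJoined I)) ∧
      ¬ IsClassical I := by
  intro k hk
  haveI : Fact (Nat.Prime 2) := ⟨Nat.prime_two⟩
  let E := GaloisField 2 3
  have hE : Nat.card E = 8 := GaloisField.card 2 3 (by norm_num)
  haveI : Finite E := Nat.finite_of_card_ne_zero (by rw [hE]; norm_num)
  haveI : NeZero k := ⟨by omega⟩
  let K := FiniteField.Extension E 2 k
  have hK : Nat.card K = 8 ^ k := by
    rw [FiniteField.natCard_extension, hE]
  haveI : Finite K := Nat.finite_of_card_ne_zero (by rw [hK]; positivity)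
  haveI : CharP K 2 := charP_of_injective_algebraMap (algebraMap E K).injective 2
  have hK' : Nat.card K = 4 * 2 ^ (3 * k - 2) := by
    rw [hK]
    obtain ⟨j, rfl⟩ : ∃ j, k = j + 1 := ⟨k - 1, by omega⟩
    have h1 : 3 * (j + 1) - 2 = 3 * j + 1 := by omega
    rw [h1, pow_succ, pow_succ, pow_mul]
    norm_num
    ring
  refine ⟨K × YY E, K × YY E, Inc (BB E K), ?_, ⟨autGroup (Inc (BB E K)), fun g hg => hg,
    trans_joined E K, trans_nonjoined E K hE⟩, not_classical E K hE⟩
  exact isSymmetricNet_of_bil (BB E K) (BB_surj1 E K) (BB_surj2 E K) 4 (2 ^ (3 * k - 2))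
    (by norm_num) Nat.one_le_two_pow (by have := Nat.one_le_two_pow (n := 3 * k - 2); omega)
    hK' hK' (card_Y E hE)
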